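import Pool.Agent.helper82.VD.SpecG

/-!
# Project VD (MP_07c750_an), block B3, row GIN (flow boxes inside Bowen balls)
-/

set_option autoImplicit false

open MeasureTheory Filter Set Topology Pool.Agent.VDE
open scoped ENNReal

namespace Pool.Agent.VDG

noncomputable section

theorem GIN_proof (hGDR : GDR_stmt) : GIN_stmt := by
  intro S _ m μ d f H C e κ F τ C1 ρ0 hS hB
  obtain ⟨_, _, hdr⟩ := hGDR μ d f H C e κ F τ C1 ρ0 hS hB
  have hC := hS.hC
  have hC1 := hB.hC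
  have he := hS.he
  have hρ0 := hB.hρ
  have hA : 0 < 2 * C * C1 := by positivity
  have hA1 : 0 < 2 * C * C1 + 1 := by positivity
  refine ⟨min (min e ρ0) (min (1 / 2) (1 / (2 * C * C1 + 1))), C * (2 * C * C1 + 1) + C * C, ?_, by positivity, ?_⟩
  · exact lt_min (lt_min he hρ0) (lt_min (by norm_num) (by positivity))
  intro x n ρ hρ hρ1 y hy
  have h1 : ρ ≤ e := hρ1.trans ((min_le_left _ _).trans (min_le_left _ _))
  have h2 : ρ ≤ ρ0 := hρ1.trans ((min_le_left _ _).trans (min_le_right _ _))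
  have h3 : ρ ≤ 1 / 2 := hρ1.trans ((min_le_right _ _).trans (min_le_left _ _))
  have h4 : ρ ≤ 1 / (2 * C * C1 + 1) := hρ1.trans ((min_le_right _ _).trans (min_le_right _ _))
  have h5 : (2 * C * C1 + 1) * ρ ≤ 1 := by
    rw [le_div_iff₀ hA1] at h4
    linarith
  obtain ⟨a, ha, s, hs, rfl⟩ := hy
  obtain ⟨T, hT⟩ := hdr x n ρ a h1 h2 ha
  intro t ht
  have ht0 : 0 ≤ t := ht.1
  have hi : ⌊t⌋₊ ≤ n := Nat.floor_le_of_le ht.2
  have hi1 : ((⌊t⌋₊ : ℕ) : ℝ) ≤ t := Nat.floor_le ht0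
  have hi2 : t < (⌊t⌋₊ : ℕ) + 1 := Nat.lt_floor_add_one t
  generalize ⌊t⌋₊ = i at hi hi1 hi2
  obtain ⟨hTi, hTi2⟩ := hT i hi
  have hai : ‖itr (orb f F x) i a‖ ≤ ρ := ha i hi
  set ai := itr (orb f F x) i a with hai_def
  have hu : |(i : ℝ) - T i + s| ≤ (2 * C * C1 + 1) * ρ := by
    have h6 : |(i : ℝ) - T i| ≤ 2 * C * C1 * ρ ^ 2 := by
      rw [abs_sub_comm]
      exact hTi2
    have h7 : 2 * C * C1 * ρ ^ 2 ≤ 2 * C * C1 * ρ := by
      have h8 : ρ ^ 2 ≤ ρ := by nlinarith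
      exact mul_le_mul_of_nonneg_left h8 hA.le
    calc |(i : ℝ) - T i + s| ≤ |(i : ℝ) - T i| + |s| := abs_add_le _ _
      _ ≤ 2 * C * C1 * ρ + ρ := by linarith
      _ = (2 * C * C1 + 1) * ρ := by ring
  set u : ℝ := (i : ℝ) - T i + s with hu_def
  set r : ℝ := t - i with hr_def
  have hu1 : |u| ≤ 1 := hu.trans h5
  have hru : |r + u| ≤ 2 := by
    have h6 : |r| ≤ 1 := by
      rw [abs_le]
      constructor <;> linarith
    exact (abs_add_le _ _).trans (by linarith)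
  have e1 : f t (f s (κ x a)) = f (r + u) (κ (f i x) ai) := by
    have h9 : t + s = r + u + T i := by
      rw [hr_def, hu_def]
      ring
    calc f t (f s (κ x a)) = f (t + s) (κ x a) := (hS.fa t s _).symm
      _ = f (r + u + T i) (κ x a) := by rw [h9]
      _ = f (r + u) (f (T i) (κ x a)) := hS.fa _ _ _
      _ = f (r + u) (κ (f i x) ai) := by rw [hTi]
  have e2 : f t x = f r (f i x) := by
    have h9 : t = r + i := by
      rw [hr_def]
      ring
    calc f t x = f (r + i) x := by rw [← h9]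
      _ = f r (f i x) := hS.fa _ _ _
  have e3 : f (r + u) (f i x) = f u (f r (f i x)) := by
    rw [← hS.fa u r, add_comm r u]
  have b1 : d (f r (f i x)) (f u (f r (f i x))) ≤ C * |u| := hS.tt _ u (by linarith)
  have b2 : d (f (r + u) (f i x)) (f (r + u) (κ (f i x) ai)) ≤ C * d (f i x) (κ (f i x) ai) := hS.lp _ _ _ hru
  have b3 : d (f i x) (κ (f i x) ai) ≤ C * ‖ai‖ := hS.kl _ _ (hai.trans h1)
  rw [e1, e2]
  have hC0 : 0 ≤ C := by linarith
  calc d (f r (f i x)) (f (r + u) (κ (f i x) ai)) ≤ d (f r (f i x)) (f (r + u) (f i x)) + d (f (r + u) (f i x)) (f (r + u) (κ (f i x) ai)) :=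
        hS.dt _ _ _
    _ ≤ C * |u| + C * (C * ‖ai‖) := by
        rw [e3] at b2 ⊢
        exact add_le_add b1 (b2.trans (mul_le_mul_of_nonneg_left b3 hC0))
    _ ≤ C * ((2 * C * C1 + 1) * ρ) + C * (C * ρ) := by
        refine add_le_add (mul_le_mul_of_nonneg_left hu hC0) (mul_le_mul_of_nonneg_left (mul_le_mul_of_nonneg_left hai hC0) hC0)
    _ = (C * (2 * C * C1 + 1) + C * C) * ρ := by ring

end

end Pool.Agent.VDG
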